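import Pool.Agent.Q270.EV.Out

/-!
# Two-point correlations along vectors of Beatty sequences

Let `f` be the Moebius or the Liouville function, let `1, α 1, ..., α s` be linearly independent over the rational
numbers and let `x(n) = (n, ⌊α 1 n + β 1⌋, ..., ⌊α s n + β s⌋)`. Let `F, F 1, ..., F k` be affine forms in `s + 1`
variables with integer coefficients that tend to infinity along `x(n)`. If `F` is not a rational linear combination
of `F 1, ..., F k`, then the means of `f(F(x(n))) g_1(F 1(x(n))) ⋯ g_k(F k(x(n)))` over `n ≤ N` are small for all `N`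
outside a set of small logarithmic density, uniformly in all 1-bounded multiplicative functions `g_j`. For `s = 0`
this is the two-point theorem for `f(a n + b) g(c n + d)`. For every `s` the signs of the Liouville function at
`s + 2` linearly independent forms are uniformly distributed.
-/

set_option autoImplicit false

open Finset Filter Topology
open scoped Classical

namespace Pool.Agent.Results.MP_c59857_nt.AffineFormsOfBeattyVectors

/-- the Liouville function -/
noncomputable def lam (n : ℕ) : ℝ := (-1 : ℝ) ^ ArithmeticFunction.cardFactors n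

/-- the Liouville or the Moebius function -/
def LamOrMu (f : ℕ → ℂ) : Prop :=
  f = (fun n => (lam n : ℂ)) ∨ f = fun n => ((ArithmeticFunction.moebius n : ℤ) : ℂ)

/-- 1-bounded multiplicative functions -/
def Mul1 (g : ℕ → ℂ) : Prop :=
  (∀ n, ‖g n‖ ≤ 1) ∧ g 1 = 1 ∧ ∀ m n : ℕ, Nat.Coprime m n → g (m * n) = g m * g n

/-- the mean of `w` over `1 ≤ n ≤ N` -/
noncomputable def mean (N : ℕ) (w : ℕ → ℂ) : ℂ := (1 / (N : ℂ)) * ∑ n ∈ Icc 1 N, w n

/-- the sum of `1 / N` over the `1 ≤ N ≤ X` with the property `P` is at most `ε log X` -/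
def Rare (ε : ℝ) (X : ℕ) (P : ℕ → Prop) : Prop :=
  ∑ N ∈ (Icc 1 X).filter (fun N => P N), 1 / (N : ℝ) ≤ ε * Real.log X

/-- the indicator of a property -/
noncomputable def ind (P : Prop) : ℂ := if P then 1 else 0

/-- affine forms in `s + 1` variables with integer coefficients: the coefficient of the first variable, the
coefficients of the other variables, and the constant term -/
abbrev Form (s : ℕ) : Type := ℤ × (Fin s → ℤ) × ℤ

/-- the value of a form at `(n, ⌊α 1 n + β 1⌋, ..., ⌊α s n + β s⌋)` -/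
noncomputable def val {s : ℕ} (α β : Fin s → ℝ) (c : Form s) (n : ℕ) : ℤ :=
  c.1 * n + ∑ i, c.2.1 i * ⌊α i * n + β i⌋ + c.2.2

/-- the growth rate of a form along the vectors -/
noncomputable def rate {s : ℕ} (α : Fin s → ℝ) (c : Form s) : ℝ := c.1 + ∑ i, c.2.1 i * α i

/-- the coefficients as rational numbers -/
def rat {s : ℕ} (c : Form s) : ℚ × (Fin s → ℚ) × ℚ := ((c.1 : ℚ), (fun i => (c.2.1 i : ℚ)), (c.2.2 : ℚ))

theorem fok {f : ℕ → ℂ} (h : LamOrMu f) : Pool.Agent.Q270.EV.Fok' f := by
  rcases h with h | h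
  · have e : f = fun n => (-1 : ℂ) ^ ArithmeticFunction.cardFactors n := by
      rw [h]
      funext n
      unfold lam
      push_cast
      rfl
    rw [e]
    exact Pool.Agent.Q270.EV.fok'_lam
  · rw [h]
    exact Pool.Agent.Q270.EV.fok'_mu

/-- the indicator of a sign vector, expanded -/
theorem ind_expand {r : ℕ} (L η : Fin r → ℝ) (hL : ∀ i, L i = 1 ∨ L i = -1) (hη : ∀ i, η i = 1 ∨ η i = -1) :
    ind (∀ i, L i = η i) = ∑ I ∈ (univ : Finset (Fin r)).powerset,
      (1 / 2 ^ r : ℂ) * (((∏ i ∈ I, η i : ℝ) : ℂ) * ((∏ i ∈ I, L i : ℝ) : ℂ)) := by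
  have h1 : ind (∀ i, L i = η i) = ∏ i, ((1 / 2 : ℂ) * (((η i * L i : ℝ) : ℂ) + 1)) := by
    unfold ind
    split_ifs with h
    · rw [eq_comm]
      refine prod_eq_one fun i _ => ?_
      rw [h i]
      have : η i * η i = 1 := by rcases hη i with h | h <;> rw [h] <;> norm_num
      rw [this]
      push_cast
      norm_num
    · push Not at h
      obtain ⟨i, hi⟩ := h
      rw [eq_comm]
      refine prod_eq_zero (mem_univ i) ?_
      have : η i * L i = -1 := by
        rcases hη i with h | h <;> rcases hL i with h' | h'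
        · exact absurd (h'.trans h.symm) hi
        · rw [h, h']; norm_num
        · rw [h, h']; norm_num
        · exact absurd (h'.trans h.symm) hi
      rw [this]
      push_cast
      norm_num
  rw [h1, prod_mul_distrib, prod_const, card_univ, Fintype.card_fin, prod_add_one, mul_sum]
  refine sum_congr rfl fun I _ => ?_
  rw [one_div, inv_pow, ← one_div]
  congr 1
  push_cast
  rw [prod_mul_distrib]

theorem lam_pm (n : ℕ) : lam n = 1 ∨ lam n = -1 := neg_one_pow_eq_or ℝ _

theorem mul1_lam : Mul1 (fun n => (lam n : ℂ)) := by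
  refine ⟨fun n => ?_, ?_, fun m n _ => ?_⟩
  · rcases lam_pm n with h | h <;> simp [h]
  · simp [lam]
  · by_cases hm : m = 0
    · subst hm
      rcases eq_or_ne n 0 with h | h
      · subst h; simp [lam]
      · have h1 : n = 1 := by
          rename_i h2
          simpa using h2
        subst h1; simp [lam]
    · by_cases hn : n = 0
      · subst hn
        have h1 : m = 1 := by
          rename_i h2
          simpa using h2
        subst h1; simp [lam]
      · unfold lam
        push_cast
        rw [ArithmeticFunction.cardFactors_mul hm hn, pow_add]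

theorem mul1_one : Mul1 (fun _ => 1) := ⟨fun _ => by simp, rfl, fun _ _ _ => by simp⟩

theorem result :
    -- one value of `f` against arbitrary multiplicative functions of the other forms
    (∀ f : ℕ → ℂ, LamOrMu f → ∀ (s k : ℕ) (α β : Fin s → ℝ),
      LinearIndependent ℚ (Fin.cons 1 α : Fin (s + 1) → ℝ) → ∀ (F : Form s) (G : Fin k → Form s),
      0 < rate α F → (∀ j, 0 < rate α (G j)) → rat F ∉ Submodule.span ℚ (Set.range fun j => rat (G j)) →
      ∀ ε : ℝ, 0 < ε → ∃ X₀ : ℕ, ∀ X : ℕ, X₀ ≤ X → ∀ g : Fin k → ℕ → ℂ, (∀ j, Mul1 (g j)) →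
        Rare ε X fun N => ε < ‖mean N fun n => f (val α β F n).toNat * ∏ j, g j (val α β (G j) n).toNat‖) ∧
    -- the signs at the forms are uniformly distributed and independent of the other functions
    (∀ (s r k : ℕ) (α β : Fin s → ℝ),
      LinearIndependent ℚ (Fin.cons 1 α : Fin (s + 1) → ℝ) → ∀ (F : Fin r → Form s) (G : Fin k → Form s),
      (∀ i, 0 < rate α (F i)) → (∀ j, 0 < rate α (G j)) →
      (∀ i, rat (F i) ∉ Submodule.span ℚ
        (Set.range (fun i' : {i' : Fin r // i' ≠ i} => rat (F i')) ∪ Set.range fun j => rat (G j))) →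
      ∀ ε : ℝ, 0 < ε → ∃ X₀ : ℕ, ∀ X : ℕ, X₀ ≤ X → ∀ g : Fin k → ℕ → ℂ, (∀ j, Mul1 (g j)) →
        ∀ η : Fin r → ℝ, (∀ i, η i = 1 ∨ η i = -1) →
        Rare ε X fun N => ε < ‖(mean N fun n => ind (∀ i, lam (val α β (F i) n).toNat = η i) *
            ∏ j, g j (val α β (G j) n).toNat) -
          (1 / 2 ^ r) * mean N fun n => ∏ j, g j (val α β (G j) n).toNat‖) := by
  refine ⟨fun f hf s k α β hα F G hF hG hspan ε hε => ?_, fun s r k α β hα F G hF hG hspan ε hε => ?_⟩
  · obtain ⟨X₀, hX₀⟩ := Pool.Agent.Q270.EV.ev_main f (fok hf) α β hα F G hF hG hspan (ε ^ 2) (by positivity)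
    refine ⟨X₀, fun X hX g hg => ?_⟩
    exact Pool.Agent.Q270.EH.rare _ (fun _ => norm_nonneg _) X ε _ hε (hX₀ X hX g hg)
  · have hlam : Pool.Agent.Q270.EV.Fok' (fun n => (lam n : ℂ)) := fok (Or.inl rfl)
    have key : ∀ i : Fin r, ∃ X₀ : ℕ, ∀ X : ℕ, X₀ ≤ X → ∀ g : {i' : Fin r // i' ≠ i} ⊕ Fin k → ℕ → ℂ, (∀ j, Mul1 (g j)) →
        ∑ N ∈ Icc 1 X, (1 / (N : ℝ)) * ‖(1 / (N : ℂ)) * ∑ n ∈ Icc 1 N, (lam (val α β (F i) n).toNat : ℂ) *
          ∏ j, g j (val α β (Sum.elim (fun i' : {i' : Fin r // i' ≠ i} => F i') G j) n).toNat‖ ≤ ε ^ 2 * Real.log X := by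
      intro i
      refine Pool.Agent.Q270.EV.ev_main (fun n => (lam n : ℂ)) hlam α β hα (F i)
        (Sum.elim (fun i' : {i' : Fin r // i' ≠ i} => F i') G) (hF i) ?_ ?_ _ (by positivity)
      · rintro (j | j)
        · exact hF j
        · exact hG j
      · refine fun h2 => hspan i (Submodule.span_mono ?_ h2)
        rintro x ⟨j, rfl⟩
        rcases j with j | j
        · exact Or.inl ⟨j, rfl⟩
        · exact Or.inr ⟨j, rfl⟩
    choose X₁ hX₁ using key
    refine ⟨∑ i, X₁ i, fun X hX g hg η hη => ?_⟩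
    have hXi : ∀ i, X₁ i ≤ X := fun i => le_trans (single_le_sum (f := X₁) (fun _ _ => Nat.zero_le _) (mem_univ i)) hX
    refine Pool.Agent.Q270.EH.rare _ (fun _ => norm_nonneg _) X ε _ hε ?_
    -- the mean for a set of forms
    have hI : ∀ I : Finset (Fin r), I.Nonempty → ∑ N ∈ Icc 1 X, (1 / (N : ℝ)) * ‖(1 / (N : ℂ)) * ∑ n ∈ Icc 1 N,
        ((∏ i ∈ I, lam (val α β (F i) n).toNat : ℝ) : ℂ) * ∏ j, g j (val α β (G j) n).toNat‖ ≤ ε ^ 2 * Real.log X := by
      intro I hI
      obtain ⟨i, hi⟩ := hI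
      have h1 := hX₁ i X (hXi i) (Sum.elim (fun i' : {i' : Fin r // i' ≠ i} =>
        if (i' : Fin r) ∈ I then (fun n => (lam n : ℂ)) else fun _ => 1) g)
        (by
          rintro (j | j)
          · simp only [Sum.elim_inl]
            split_ifs
            · exact mul1_lam
            · exact mul1_one
          · exact hg j)
      refine le_trans (le_of_eq (sum_congr rfl fun N _ => ?_)) h1
      congr 3
      refine sum_congr rfl fun n _ => ?_
      rw [Fintype.prod_sum_type, ← mul_prod_erase _ _ hi]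
      have e1 : ∏ i' : {i' : Fin r // i' ≠ i}, Sum.elim (fun i' : {i' : Fin r // i' ≠ i} =>
            if (i' : Fin r) ∈ I then (fun n => (lam n : ℂ)) else fun _ => 1) g
          (Sum.inl i') (val α β (Sum.elim (fun i' : {i' : Fin r // i' ≠ i} => F i') G (Sum.inl i')) n).toNat =
          ((∏ i' ∈ I.erase i, lam (val α β (F i') n).toNat : ℝ) : ℂ) := by
        simp only [Sum.elim_inl]
        have e3 : ∀ i' : {i' : Fin r // i' ≠ i}, (if (i' : Fin r) ∈ I then (fun n => (lam n : ℂ)) else fun _ => 1)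
            (val α β (F i') n).toNat = (fun i'' : Fin r => if i'' ∈ I then (lam (val α β (F i'') n).toNat : ℂ) else 1) i' := by
          intro i'
          dsimp only
          split_ifs <;> rfl
        rw [prod_congr rfl fun i' _ => e3 i']
        have e4 : ∏ i' : {i' : Fin r // i' ≠ i}, (fun i'' : Fin r => if i'' ∈ I then (lam (val α β (F i'') n).toNat : ℂ) else 1) i' =
            ∏ i' ∈ univ.erase i, if i' ∈ I then (lam (val α β (F i') n).toNat : ℂ) else 1 := by
          rw [prod_subtype (univ.erase i) (p := fun i' => i' ≠ i) (fun i' => by simp)]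
        rw [e4]
        push_cast
        rw [← prod_subset (erase_subset_erase i (subset_univ I)) (fun i' _ hi' => by
          rw [if_neg]
          intro h5
          apply hi'
          rename_i h6
          exact mem_erase.2 ⟨(mem_erase.1 h6).1, h5⟩)]
        refine prod_congr rfl fun i' hi' => ?_
        rw [if_pos (mem_of_mem_erase hi')]
      rw [e1]
      simp only [Sum.elim_inr]
      push_cast
      ring
    -- the expansion
    have hexp : ∀ N : ℕ, ‖(mean N fun n => ind (∀ i, lam (val α β (F i) n).toNat = η i) *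
            ∏ j, g j (val α β (G j) n).toNat) - (1 / 2 ^ r) * mean N fun n => ∏ j, g j (val α β (G j) n).toNat‖ ≤
        ∑ I ∈ (univ : Finset (Fin r)).powerset.erase ∅, (1 / 2 ^ r : ℝ) * ‖(1 / (N : ℂ)) * ∑ n ∈ Icc 1 N,
          ((∏ i ∈ I, lam (val α β (F i) n).toNat : ℝ) : ℂ) * ∏ j, g j (val α β (G j) n).toNat‖ := by
      intro N
      have e3 : (mean N fun n => ind (∀ i, lam (val α β (F i) n).toNat = η i) * ∏ j, g j (val α β (G j) n).toNat) =
          ∑ I ∈ (univ : Finset (Fin r)).powerset, (1 / 2 ^ r : ℂ) * ((∏ i ∈ I, η i : ℝ) : ℂ) *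
            ((1 / (N : ℂ)) * ∑ n ∈ Icc 1 N,
              ((∏ i ∈ I, lam (val α β (F i) n).toNat : ℝ) : ℂ) * ∏ j, g j (val α β (G j) n).toNat) := by
        unfold mean
        simp_rw [ind_expand (fun i => lam (val α β (F i) _).toNat) η (fun i => lam_pm _) hη]
        simp_rw [mul_sum, sum_mul, mul_sum]
        rw [sum_comm]
        refine sum_congr rfl fun I _ => sum_congr rfl fun n _ => ?_
        ring
      rw [e3, ← add_sum_erase _ _ (show (∅ : Finset (Fin r)) ∈ (univ : Finset (Fin r)).powerset by simp)]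
      simp only [prod_empty, Complex.ofReal_one, mul_one, one_mul]
      unfold mean
      rw [add_sub_cancel_left]
      refine norm_sum_le_of_le _ fun I _ => ?_
      rw [norm_mul, norm_mul]
      have h1 : ‖((∏ i ∈ I, η i : ℝ) : ℂ)‖ = 1 := by
        rw [Complex.norm_real, Real.norm_eq_abs, abs_prod]
        refine prod_eq_one fun i _ => ?_
        rcases hη i with h | h <;> rw [h] <;> norm_num
      have h2 : ‖(1 / 2 ^ r : ℂ)‖ = 1 / 2 ^ r := by
        rw [norm_div, norm_pow]
        norm_num
      rw [h1, h2, mul_one]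
    calc ∑ N ∈ Icc 1 X, (1 / (N : ℝ)) * ‖(mean N fun n => ind (∀ i, lam (val α β (F i) n).toNat = η i) *
            ∏ j, g j (val α β (G j) n).toNat) - (1 / 2 ^ r) * mean N fun n => ∏ j, g j (val α β (G j) n).toNat‖ ≤
        ∑ N ∈ Icc 1 X, (1 / (N : ℝ)) * ∑ I ∈ (univ : Finset (Fin r)).powerset.erase ∅, (1 / 2 ^ r : ℝ) *
          ‖(1 / (N : ℂ)) * ∑ n ∈ Icc 1 N,
          ((∏ i ∈ I, lam (val α β (F i) n).toNat : ℝ) : ℂ) * ∏ j, g j (val α β (G j) n).toNat‖ :=
          sum_le_sum fun N _ => mul_le_mul_of_nonneg_left (hexp N) (by positivity)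
      _ = ∑ I ∈ (univ : Finset (Fin r)).powerset.erase ∅, (1 / 2 ^ r : ℝ) * ∑ N ∈ Icc 1 X, (1 / (N : ℝ)) *
          ‖(1 / (N : ℂ)) * ∑ n ∈ Icc 1 N,
          ((∏ i ∈ I, lam (val α β (F i) n).toNat : ℝ) : ℂ) * ∏ j, g j (val α β (G j) n).toNat‖ := by
          simp_rw [mul_sum (s := (univ : Finset (Fin r)).powerset.erase ∅)]
          rw [sum_comm]
          refine sum_congr rfl fun I _ => ?_
          rw [mul_sum]
          refine sum_congr rfl fun N _ => ?_
          ring
      _ ≤ ∑ I ∈ (univ : Finset (Fin r)).powerset.erase ∅, (1 / 2 ^ r : ℝ) * (ε ^ 2 * Real.log X) := by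
          refine sum_le_sum fun I hI' => mul_le_mul_of_nonneg_left (hI I ?_) (by positivity)
          rw [mem_erase] at hI'
          exact nonempty_iff_ne_empty.2 hI'.1
      _ ≤ ε ^ 2 * Real.log X := by
          rw [sum_const, nsmul_eq_mul, ← mul_assoc]
          have h1 : (((univ : Finset (Fin r)).powerset.erase ∅).card : ℝ) ≤ 2 ^ r := by
            have := card_le_card (erase_subset (∅ : Finset (Fin r)) (univ : Finset (Fin r)).powerset)
            rw [card_powerset, card_univ, Fintype.card_fin] at this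
            exact_mod_cast this
          have h2 : (((univ : Finset (Fin r)).powerset.erase ∅).card : ℝ) * (1 / 2 ^ r) ≤ 1 := by
            rw [mul_one_div, div_le_one (by positivity)]
            exact h1
          have h3 : 0 ≤ ε ^ 2 * Real.log X := mul_nonneg (by positivity) (Real.log_natCast_nonneg X)
          nlinarith

end Pool.Agent.Results.MP_c59857_nt.AffineFormsOfBeattyVectors
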