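import Pool.Agent.Q270.EF.Conv

/-!
# Correlations of the Moebius function in all residue classes to moduli up to a power of `N`

Let `h_1, ..., h_k ≥ 0`, let `g_1, ..., g_k` be multiplicative functions bounded by one, for instance all equal to `μ`,
and `F(n) = g_1(n + h_1) ⋯ g_k(n + h_k)`. `LogProp X B` is the proportion, with the weights `1/N`, of the scales
`N ≤ X` with the property `B`.

`Products w A N L h F m ε`: for ALL finite sets `Q` of primes `w < q ≤ N^{1/A}` with `∑_{q ∈ Q} 1/q ≤ L` and ALL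
choices of residue classes `a_q` modulo `q ∈ Q` with `q ∤ (a_q + h_1) ⋯ (a_q + h_k)`,
`∑_d |∑_{n ≤ N, n ≡ a_q (mod q) for all q | d} F(n) - m / d| ≤ ε N`,
where `d` runs over the products at most `N^{1/A}` of distinct primes of `Q`.

`Primes w A N h F m ε`: all primes `w < q ≤ N^{1/A}` but a set with `∑ 1/q ≤ ε` satisfy
`|∑_{n ≤ N, n ≡ a (mod q)} F(n) - m / q| ≤ ε N / q` for ALL classes `a` with `q ∤ (a + h_1) ⋯ (a + h_k)`, and
`|∑_{n ≤ N} F(n) ψ(n) - m · mean(ψ)| ≤ ε N` for ALL functions `|ψ| ≤ 1` of period `q`.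

1. For all `L, ε > 0` there are `w₀`, `A` such that for `w ≥ w₀` and large `X`, uniformly in the `g_j`, all scales
   `N ≤ X` but a logarithmic proportion `ε` satisfy both properties with the main term `m = ∑_{n ≤ N} F(n)`.
2. In the same sense, with the main term `0`, for `μ(n + b_1) g(n + b_2) ∏_i μ(n + c_i)^2`, `b_1 ≠ b_2`: cancellation in
   all these residue classes.
3. Chowla's conjecture for the Moebius function, all exponents, at almost all scales, is equivalent to both properties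
   with main term `0`, in the same sense, for all `μ(n + h_0) g_1(n + h_1) ⋯ g_k(n + h_k)` with distinct `h_j`.
-/

set_option autoImplicit false

namespace Pool.Agent.Results.MP_c59857_nt.AllResidueClasses

open Finset Filter Pool.Agent.Q270.EA Pool.Agent.Q270.EB Pool.Agent.Q270.EC Pool.Agent.Q270.ED
  Pool.Agent.Q270.EF

open Classical in
/-- the proportion, with the weights `1 / N`, of the scales `N ≤ X` with the property `B` -/
noncomputable def LogProp (X : ℕ) (B : ℕ → Prop) : ℝ :=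
  (∑ N ∈ Icc 1 X, if B N then 1 / (N : ℝ) else 0) / ∑ N ∈ Icc 1 X, 1 / (N : ℝ)

/-- 1-bounded multiplicative functions -/
def Mul1 (f : ArithmeticFunction ℂ) : Prop := f.IsMultiplicative ∧ ∀ n, ‖f n‖ ≤ 1

/-- the Moebius function with values in `ℂ` -/
noncomputable def mob (n : ℕ) : ℂ := ((ArithmeticFunction.moebius n : ℤ) : ℂ)

/-- all residue classes modulo the products of primes -/
def Products {k : ℕ} (w A N : ℕ) (L : ℝ) (h : Fin k → ℕ) (F : ℕ → ℂ) (m : ℂ) (ε : ℝ) : Prop :=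
  ∀ (Q : Finset ℕ) (a : ℕ → ℤ), (∀ q ∈ Q, q.Prime ∧ w < q ∧ q ^ A ≤ N ∧ ∀ j, ¬ (q : ℤ) ∣ a q + h j) →
    ∑ q ∈ Q, 1 / (q : ℝ) ≤ L →
    ∑ Z ∈ Q.powerset.filter (fun Z => (∏ q ∈ Z, q) ^ A ≤ N),
      ‖∑ n ∈ (Icc 1 N).filter (fun n : ℕ => ∀ q ∈ Z, (q : ℤ) ∣ (n : ℤ) - a q), F n -
        m / ((∏ q ∈ Z, q : ℕ) : ℂ)‖ ≤ ε * N

/-- all residue classes and all periodic functions modulo almost all primes -/
def Primes {k : ℕ} (w A N : ℕ) (h : Fin k → ℕ) (F : ℕ → ℂ) (m : ℂ) (ε : ℝ) : Prop :=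
  ∃ B : Finset ℕ, ∑ q ∈ B, 1 / (q : ℝ) ≤ ε ∧ ∀ q : ℕ, q.Prime → w < q → q ^ A ≤ N → q ∉ B →
    (∀ a : ℤ, (∀ j, ¬ (q : ℤ) ∣ a + h j) →
      ‖∑ n ∈ (Icc 1 N).filter (fun n : ℕ => (q : ℤ) ∣ (n : ℤ) - a), F n - m / (q : ℂ)‖ ≤ ε * N / q) ∧
    ∀ ψ : ℤ → ℂ, (∀ n, ψ (n + q) = ψ n) → (∀ n, ‖ψ n‖ ≤ 1) →
      ‖∑ n ∈ Icc 1 N, F n * ψ n - m * ((∑ a ∈ range q, ψ ((a : ℕ) : ℤ)) / q)‖ ≤ ε * N

/-- Chowla's conjecture for the Moebius function, all exponents, at almost all scales -/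
def ChowlaAlmostAllScales : Prop :=
  ∀ (r : ℕ) (α : Fin r → ℤ), Function.Injective α → ∀ e : Fin r → ℕ, (∀ i, e i = 1 ∨ e i = 2) →
    (∃ i, e i = 1) → ∀ ε : ℝ, 0 < ε → ∃ X₀ : ℕ, ∀ X : ℕ, X₀ ≤ X →
      LogProp X (fun N => ε * N < ‖∑ n ∈ Icc 1 N, ∏ i, mob ((n : ℤ) + α i).toNat ^ e i‖) ≤ ε

/-- cancellation in all residue classes, with arbitrary companions -/
def ChowlaInAllClasses : Prop :=
  ∀ (k : ℕ) (h : Fin (k + 1) → ℕ), Function.Injective h → ∀ L ε : ℝ, 0 < L → 0 < ε →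
    ∃ w₀ A : ℕ, 1 ≤ A ∧ ∀ w : ℕ, w₀ ≤ w → ∃ X₀ : ℕ, ∀ X : ℕ, X₀ ≤ X →
    ∀ g : Fin k → ArithmeticFunction ℂ, (∀ j, Mul1 (g j)) →
      LogProp X (fun N => ¬ (
        Products w A N L h (fun n => mob (n + h 0) * ∏ j : Fin k, g j (n + h j.succ)) 0 ε ∧
        Primes w A N h (fun n => mob (n + h 0) * ∏ j : Fin k, g j (n + h j.succ)) 0 ε)) ≤ ε

lemma bm {f : ArithmeticFunction ℂ} (hf : Mul1 f) : BM f :=
  ⟨hf.2, hf.1.map_one, fun _ _ h => hf.1.map_mul_of_coprime h⟩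

/-- from averages to sums -/
lemma conv {k : ℕ} (w A N : ℕ) (hN : 1 ≤ N) (hA : 1 ≤ A) (L : ℝ) (h : Fin k → ℕ) (F : ℕ → ℂ) (m : ℂ)
    (ε : ℝ) (h1 : LevM w A N L (fun _ => 1) h F (1 / (N : ℂ) * m) ε)
    (h2 : PrmM w A N (fun _ => 1) h F (1 / (N : ℂ) * m) ε) :
    Products w A N L h F m ε ∧ Primes w A N h F m ε := by
  classical
  have hN0 : (0 : ℝ) < N := by exact_mod_cast hN
  refine ⟨fun Q a hQ hL => ?_, ?_⟩
  · have h3 := h1 Q a (fun q hq => by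
      obtain ⟨e1, e2, e3, e4⟩ := hQ q hq
      refine ⟨e2, e1, e3, fun j => ?_⟩
      rw [Nat.cast_one, one_mul]
      exact e4 j) hL
    rw [prods_eq A N hA Q] at h3
    have h4 : ∀ Z ∈ Q.powerset.filter (fun Z => (∏ q ∈ Z, q) ^ A ≤ N),
        ‖∑ n ∈ (Icc 1 N).filter (fun n : ℕ => ∀ q ∈ Z, (q : ℤ) ∣ (n : ℤ) - a q), F n -
          m / ((∏ q ∈ Z, q : ℕ) : ℂ)‖ = N * ‖AvN N (fun n => if Con a Z n then F n else 0) -
          (1 / ((∏ q ∈ Z, q : ℕ) : ℂ)) * (1 / (N : ℂ) * m)‖ := by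
      intro Z _
      rw [conv_set N hN (fun n : ℕ => ∀ q ∈ Z, (q : ℤ) ∣ (n : ℤ) - a q) F _ m]
      rfl
    rw [sum_congr rfl h4, ← mul_sum, mul_comm ε]
    exact mul_le_mul_of_nonneg_left h3 hN0.le
  · obtain ⟨B, hB, h3⟩ := h2
    refine ⟨B, hB, fun q hq hqw hqN hqB => ?_⟩
    obtain ⟨h4, h5⟩ := h3 q hq hqw hqN hqB
    refine ⟨fun a ha => ?_, fun ψ hψ hψ1 => ?_⟩
    · rw [conv_set N hN (fun n : ℕ => (q : ℤ) ∣ (n : ℤ) - a) F _ m]
      have h6 := mul_le_mul_of_nonneg_left (h4 a (fun j => by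
        rw [Nat.cast_one, one_mul]
        exact ha j)) hN0.le
      refine h6.trans (le_of_eq ?_)
      ring
    · rw [conv_all N hN F (fun n => ψ n) _ m q, mul_comm ε]
      exact mul_le_mul_of_nonneg_left (h5 ψ hψ hψ1) hN0.le

lemma triv_rho (g : ℕ → ℂ) : ∃ ρ : ℂ, ‖ρ‖ = 1 ∧ ∀ m, 1 ≤ m → g (1 / 1 * m) * 1 = ρ * (g m * 1) :=
  ⟨1, by simp, fun m _ => by simp⟩

/-- no main term, given small means -/
lemma zero_main {k : ℕ} (h : Fin k → ℕ) (L ε : ℝ) (hL : 0 < L) (hε : 0 < ε) :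
    ∃ w₀ A : ℕ, 1 ≤ A ∧ ∀ w : ℕ, w₀ ≤ w → ∃ X₀ : ℕ, ∀ X : ℕ, X₀ ≤ X →
    ∀ g : Fin k → ℕ → ℂ, (∀ j, BM (g j)) →
      LM X (fun N => min (ε / 2) (ε / (2 * Real.exp L)) < ‖AvN N (fun n => ∏ j, g j (n + h j))‖) ≤
        min (ε / 2) (ε / (2 * Real.exp L)) →
      LogProp X (fun N => ¬ (Products w A N L h (fun n => ∏ j, g j (n + h j)) 0 ε ∧
        Primes w A N h (fun n => ∏ j, g j (n + h j)) 0 ε)) ≤ ε := by
  classical
  obtain ⟨w₀, A, hA, h0⟩ := main_f k (fun _ => 1) h 1 le_rfl (fun _ => ⟨le_rfl, dvd_rfl⟩) L hL.le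
    (ε / 2) (by positivity)
  refine ⟨w₀, A, hA, fun w hw => ?_⟩
  obtain ⟨X₀, h1⟩ := h0 w hw
  refine ⟨X₀, fun X hX g hg hmean => ?_⟩
  have h2 := h1 X hX g (fun _ _ => 1) hg (fun _ => QM_one' w) (fun j => triv_rho (g j))
  simp only [mul_one, one_mul] at h2
  refine (LM_mono X (Q := fun N => (¬ (LevM w A N L (fun _ => 1) h (fun n => ∏ j, g j (n + h j))
          (AvN N (fun n => ∏ j, g j (n + h j))) (ε / 2) ∧
        PrmM w A N (fun _ => 1) h (fun n => ∏ j, g j (n + h j))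
          (AvN N (fun n => ∏ j, g j (n + h j))) (ε / 2))) ∨
        min (ε / 2) (ε / (2 * Real.exp L)) < ‖AvN N (fun n => ∏ j, g j (n + h j))‖)
        fun N hN hbad => ?_).trans ((LM_or X _ _).trans ?_)
  · by_contra hcon
    push Not at hcon
    obtain ⟨hc1, hc2⟩ := hcon
    apply hbad
    have hN1 := (mem_Icc.1 hN).1
    have h3 := main_z w A N L (fun _ => 1) h _ ε hε hc1 (hc2.trans (min_le_right _ _)) hL.le
    refine conv w A N hN1 hA L h _ 0 ε ?_ ?_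
    · rw [mul_zero]
      exact h3.1
    · rw [mul_zero]
      exact h3.2
  · have h4 : min (ε / 2) (ε / (2 * Real.exp L)) ≤ ε / 2 := min_le_left _ _
    linarith

lemma delta_pos {L ε : ℝ} (hε : 0 < ε) : 0 < min (ε / 2) (ε / (2 * Real.exp L)) :=
  lt_min (by positivity) (by positivity)

lemma classes_of_chowla (hC : ChowlaAlmostAllScales) : ChowlaInAllClasses := by
  intro k h hh L ε hL hε
  have hE : EllU mu := ell_mu fun r α hr hα ε hε => by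
    obtain ⟨X₀, hX₀⟩ := hC r α hα (fun _ => 1) (fun _ => Or.inl rfl) ⟨⟨0, hr⟩, rfl⟩ ε hε
    refine ⟨X₀, fun X hX => le_trans (LM_mono X fun N hN hlt => ?_) (hX₀ X hX)⟩
    have hN0 : (0 : ℝ) < N := by exact_mod_cast (mem_Icc.1 hN).1
    simp only [pow_one]
    unfold AvN at hlt
    rw [norm_mul, norm_div, norm_one, Complex.norm_natCast, one_div_mul_eq_div, lt_div_iff₀ hN0] at hlt
    exact hlt
  obtain ⟨w₀, A, hA, h0⟩ := zero_main h L ε hL hε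
  obtain ⟨X₁, hX₁⟩ := mean_ell mu BM_mu hE k h hh _ (delta_pos (L := L) hε)
  refine ⟨w₀, A, hA, fun w hw => ?_⟩
  obtain ⟨X₀, h1⟩ := h0 w hw
  refine ⟨X₀ + X₁, fun X hX g hg => ?_⟩
  have h2 := h1 X (by omega) (Fin.cons mu (fun j => (g j : ℕ → ℂ)) : Fin (k + 1) → ℕ → ℂ) (fun j => by
    refine Fin.cases ?_ (fun j => ?_) j
    · exact BM_mu
    · exact bm (hg j))
  have e1 : ∀ n : ℕ, ∏ j : Fin (k + 1), (Fin.cons mu (fun j => (g j : ℕ → ℂ)) : Fin (k + 1) → ℕ → ℂ) j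
      (n + h j) = mob (n + h 0) * ∏ j : Fin k, g j (n + h j.succ) := by
    intro n
    rw [Fin.prod_univ_succ]
    simp only [Fin.cons_zero, Fin.cons_succ]
    rfl
  simp only [e1] at h2
  exact h2 (hX₁ X (by omega) (fun j => g j) fun j => bm (hg j))

/-- the powers of the Moebius function as arithmetic functions -/
noncomputable def mobPow (e : ℕ) (he : e ≠ 0) : ArithmeticFunction ℂ :=
  ⟨fun n => mob n ^ e, by simp [mob, he]⟩

lemma mobPow_mul1 (e : ℕ) (he : e ≠ 0) : Mul1 (mobPow e he) := by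
  have hb := Pool.Agent.Q239.EB.BM_pow BM_mu e
  exact ⟨⟨hb.2.1, fun {m n} h => hb.2.2 m n h⟩, hb.1⟩

lemma chowla_of_classes (hO : ChowlaInAllClasses) : ChowlaAlmostAllScales := by
  classical
  intro r α hα e he hi ε hε
  obtain ⟨i₀, hi₀⟩ := hi
  obtain ⟨k, rfl⟩ : ∃ k, r = k + 1 := ⟨r - 1, by have := i₀.2; omega⟩
  obtain ⟨C, hC⟩ : ∃ C : ℕ, ∀ i, 0 ≤ α i + C := by
    refine ⟨∑ i, (α i).natAbs, fun i => ?_⟩
    have h1 : (α i).natAbs ≤ ∑ i, (α i).natAbs :=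
      single_le_sum (f := fun i => (α i).natAbs) (fun _ _ => Nat.zero_le _) (mem_univ i)
    omega
  obtain ⟨σ, hσ⟩ : ∃ σ : Equiv.Perm (Fin (k + 1)), σ = Equiv.swap 0 i₀ := ⟨_, rfl⟩
  have hσ0 : σ 0 = i₀ := by rw [hσ]; exact Equiv.swap_apply_left _ _
  obtain ⟨h, hh⟩ : ∃ h : Fin (k + 1) → ℕ, ∀ i, ((h i : ℕ) : ℤ) = α (σ i) + C :=
    ⟨fun i => (α (σ i) + C).toNat, fun i => Int.toNat_of_nonneg (hC _)⟩
  have hhi : Function.Injective h := by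
    intro i j hij
    apply σ.injective
    apply hα
    have h1 := hh i
    have h2 := hh j
    rw [hij] at h1
    linarith
  have he0 : ∀ i, e i ≠ 0 := fun i => by rcases he i with h | h <;> omega
  obtain ⟨w₀, A, hA, h1⟩ := hO k h hhi 1 (ε / 2) one_pos (by positivity)
  obtain ⟨X₁, h2⟩ := h1 w₀ le_rfl
  obtain ⟨N₀, hN₀⟩ : ∃ N₀ : ℕ, 4 * C / (ε / 2) ≤ N₀ := exists_nat_ge _
  obtain ⟨X₂, h3⟩ := LM_small (N₀ + 1) (ε / 2) (by positivity)
  refine ⟨X₁ + X₂, fun X hX => ?_⟩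
  have e1 := h2 X (by omega) (fun j => mobPow (e (σ j.succ)) (he0 _)) (fun j => mobPow_mul1 _ _)
  have e2 := h3 X (by omega)
  obtain ⟨ψ, hψ⟩ : ∃ ψ : ℕ → ℂ, ψ = fun n : ℕ => ∏ i, mob ((n : ℤ) + α i).toNat ^ e i := ⟨_, rfl⟩
  have hψ1 : ∀ n, ‖ψ n‖ ≤ 1 := by
    intro n
    rw [hψ]
    dsimp only
    rw [norm_prod]
    refine prod_le_one (fun _ _ => norm_nonneg _) fun i _ => ?_
    rw [norm_pow]
    exact pow_le_one₀ (norm_nonneg _) (BM_mu.1 _)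
  have hshift : ∀ n : ℕ, ψ (n + C) = mob (n + h 0) * ∏ j : Fin k, mob (n + h j.succ) ^ e (σ j.succ) := by
    intro n
    have h4 : ∀ i, (((n + C : ℕ) : ℤ) + α (σ i)).toNat = n + h i := by
      intro i
      have h5 := hh i
      have h6 : ((n + C : ℕ) : ℤ) + α (σ i) = ((n + h i : ℕ) : ℤ) := by
        push_cast
        linarith
      rw [h6, Int.toNat_natCast]
    rw [hψ]
    dsimp only
    rw [← Equiv.prod_comp σ, Fin.prod_univ_succ]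
    simp_rw [h4]
    rw [hσ0, hi₀, pow_one]
  obtain ⟨Fm, hFm⟩ : ∃ Fm : ℕ → ℂ, Fm = fun n => mob (n + h 0) *
    ∏ j : Fin k, mobPow (e (σ j.succ)) (he0 _) (n + h j.succ) := ⟨_, rfl⟩
  rw [← hFm] at e1
  refine (LM_mono X (Q := fun N => (¬ (Products w₀ A N 1 h Fm 0 (ε / 2) ∧ Primes w₀ A N h Fm 0 (ε / 2))) ∨
    N < N₀ + 1) fun N hN1 hN => ?_).trans ((LM_or X _ _).trans (by
      have := add_le_add e1 e2
      rw [add_halves] at this
      exact this))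
  by_contra hcon
  push Not at hcon
  obtain ⟨⟨hc1, -⟩, hc2⟩ := hcon
  have hN0 : (0 : ℝ) < N := by exact_mod_cast (by omega : 0 < N)
  have e3 := hc1 ∅ (fun _ => 0) (fun q hq => absurd hq (notMem_empty q)) (by simp)
  have e4 : (∅ : Finset ℕ).powerset.filter (fun Z => (∏ q ∈ Z, q) ^ A ≤ N) = {∅} := by
    rw [powerset_empty, filter_singleton, if_pos]
    rw [prod_empty, one_pow]
    omega
  rw [e4, sum_singleton] at e3
  simp only [notMem_empty, IsEmpty.forall_iff, implies_true, filter_true, zero_div, sub_zero] at e3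
  have e5 : ∑ n ∈ Icc 1 N, Fm n = ∑ n ∈ Icc 1 N, ψ (n + C) := by
    refine sum_congr rfl fun n _ => ?_
    rw [hshift, hFm]
    rfl
  rw [e5] at e3
  have e6 := shift_leC hψ1 N C
  rw [div_le_iff₀ (by positivity)] at hN₀
  have h7 : (N₀ : ℝ) ≤ N := by exact_mod_cast (by omega : N₀ ≤ N)
  have e7 : ‖∑ n ∈ Icc 1 N, ψ n‖ ≤ ‖∑ n ∈ Icc 1 N, ψ (n + C) - ∑ n ∈ Icc 1 N, ψ n‖ +
      ‖∑ n ∈ Icc 1 N, ψ (n + C)‖ := by
    have := norm_sub_le (∑ n ∈ Icc 1 N, ψ (n + C)) (∑ n ∈ Icc 1 N, ψ (n + C) - ∑ n ∈ Icc 1 N, ψ n)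
    rw [sub_sub_cancel] at this
    linarith
  have e8 : ε * N < ‖∑ n ∈ Icc 1 N, ψ n‖ := by rw [hψ]; exact hN
  nlinarith

theorem result :
    -- 1. all orders, relative to the full sums
    (∀ (k : ℕ) (h : Fin k → ℕ) (L ε : ℝ), 0 < L → 0 < ε →
      ∃ w₀ A : ℕ, 1 ≤ A ∧ ∀ w : ℕ, w₀ ≤ w → ∃ X₀ : ℕ, ∀ X : ℕ, X₀ ≤ X →
      ∀ g : Fin k → ArithmeticFunction ℂ, (∀ j, Mul1 (g j)) →
      LogProp X (fun N => ¬ (
        Products w A N L h (fun n => ∏ j, g j (n + h j)) (∑ n ∈ Icc 1 N, ∏ j, g j (n + h j)) ε ∧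
        Primes w A N h (fun n => ∏ j, g j (n + h j)) (∑ n ∈ Icc 1 N, ∏ j, g j (n + h j)) ε)) ≤ ε) ∧
    -- 2. two simple exponents and squares: cancellation in all classes
    (∀ (s : ℕ) (c : Fin s → ℕ) (b₁ b₂ : ℕ), b₁ ≠ b₂ → ∀ L ε : ℝ, 0 < L → 0 < ε →
      ∃ w₀ A : ℕ, 1 ≤ A ∧ ∀ w : ℕ, w₀ ≤ w → ∃ X₀ : ℕ, ∀ X : ℕ, X₀ ≤ X →
      ∀ g : ArithmeticFunction ℂ, Mul1 g →
      LogProp X (fun N => ¬ (
        Products w A N L (Fin.cons b₁ (Fin.cons b₂ c) : Fin (s + 2) → ℕ)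
          (fun n => mob (n + b₁) * (g (n + b₂) * ∏ i, mob (n + c i) ^ 2)) 0 ε ∧
        Primes w A N (Fin.cons b₁ (Fin.cons b₂ c) : Fin (s + 2) → ℕ)
          (fun n => mob (n + b₁) * (g (n + b₂) * ∏ i, mob (n + c i) ^ 2)) 0 ε)) ≤ ε) ∧
    -- 3. the conjecture at almost all scales
    (ChowlaAlmostAllScales ↔ ChowlaInAllClasses) := by
  classical
  refine ⟨?_, ?_, classes_of_chowla, chowla_of_classes⟩
  · intro k h L ε hL hε
    obtain ⟨w₀, A, hA, h0⟩ := main_f k (fun _ => 1) h 1 le_rfl (fun _ => ⟨le_rfl, dvd_rfl⟩) L hL.le ε hε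
    refine ⟨w₀, A, hA, fun w hw => ?_⟩
    obtain ⟨X₀, h1⟩ := h0 w hw
    refine ⟨X₀, fun X hX g hg => ?_⟩
    have h2 := h1 X hX (fun j => g j) (fun _ _ => 1) (fun j => bm (hg j)) (fun _ => QM_one' w)
      (fun j => triv_rho (g j))
    simp only [mul_one, one_mul] at h2
    refine (LM_mono X fun N hN hbad => ?_).trans h2
    intro hcon
    apply hbad
    exact conv w A N (mem_Icc.1 hN).1 hA L h _ _ ε hcon.1 hcon.2
  · intro s c b₁ b₂ hb L ε hL hε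
    obtain ⟨h, hh⟩ : ∃ h : Fin (s + 2) → ℕ, h = Fin.cons b₁ (Fin.cons b₂ c) := ⟨_, rfl⟩
    rw [← hh]
    obtain ⟨w₀, A, hA, h0⟩ := zero_main h L ε hL hε
    obtain ⟨X₁, hX₁⟩ := mean_mu s c b₁ b₂ hb _ (delta_pos (L := L) hε)
    refine ⟨w₀, A, hA, fun w hw => ?_⟩
    obtain ⟨X₀, h1⟩ := h0 w hw
    refine ⟨X₀ + X₁, fun X hX g hg => ?_⟩
    have h2 := h1 X (by omega) (Fin.cons mu (Fin.cons (g : ℕ → ℂ) (fun _ n => mu n ^ 2)) :
      Fin (s + 2) → ℕ → ℂ) (fun j => by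
      refine Fin.cases ?_ (fun j => ?_) j
      · exact BM_mu
      · refine Fin.cases ?_ (fun j => ?_) j
        · exact bm hg
        · exact Pool.Agent.Q239.EB.BM_pow BM_mu 2)
    have e1 : ∀ n : ℕ, ∏ j : Fin (s + 2), (Fin.cons mu (Fin.cons (g : ℕ → ℂ) (fun _ n => mu n ^ 2)) :
        Fin (s + 2) → ℕ → ℂ) j (n + h j) = mob (n + b₁) * (g (n + b₂) * ∏ i, mob (n + c i) ^ 2) := by
      intro n
      rw [Fin.prod_univ_succ, Fin.prod_univ_succ, hh]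
      simp only [Fin.cons_zero, Fin.cons_succ]
      rfl
    simp only [e1] at h2
    exact h2 (hX₁ X (by omega) g (bm hg))

end Pool.Agent.Results.MP_c59857_nt.AllResidueClasses
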