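import Mathlib
import Pool.Agent.Q236.CR.Cor2

/-!
# Autocorrelations of the Moebius function along almost all systems of polynomials, in the complete range

For almost all systems of `k` polynomials of bounded degrees with coefficients of size at most `H`, shifted by ARBITRARY
functions, the Moebius function of one value is orthogonal to EVERY function of `n` and of the values of the other
polynomials, with an arbitrary power of the logarithm saved, for ALL `K` between `(log H)^B` and `H / (log H)^B`. The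
number `k` of the polynomials may grow like any multiple of `log log H`.
-/

set_option autoImplicit false

namespace Pool.Agent.Results.MP_c59857_nt.CompleteRange

open Finset

/-- the value at `n` of the function `g` plus the polynomial of degree at most `d` with coefficients `c 0, ..., c d` -/
def val (d : ℕ) (g : ℕ → ℤ) (c : Fin (d + 1) → ℤ) (n : ℕ) : ℤ := g n + ∑ l, c l * (n : ℤ) ^ (l : ℕ)

/-- the systems of coefficients of polynomials of degrees at most `d i`, all coefficients in `[-H, H]` -/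
noncomputable def Box (k : ℕ) (d : Fin k → ℕ) (H : ℕ) : Finset ((i : Fin k) → Fin (d i + 1) → ℤ) :=
  Fintype.piFinset (fun i => Fintype.piFinset (fun _ : Fin (d i + 1) => Icc (-(H : ℤ)) H))

open Classical in
theorem result (D A : ℕ) :
    ∃ B H0 : ℕ, ∀ H : ℕ, H0 ≤ H → ∀ (k : ℕ) (d : Fin k → ℕ), (2 : ℝ) ^ k ≤ Real.log H ^ A → (∀ i, 1 ≤ d i ∧ d i ≤ D) →
    ∀ g : Fin k → ℕ → ℤ, (∀ i, ∀ n : ℕ, 1 ≤ n → n ≤ H → |g i n| ≤ H * (n : ℤ) ^ d i) →
    ∀ F : Finset (ℕ → (Fin k → ℤ) → ℂ), (F.card : ℝ) ≤ Real.log H ^ A →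
      (∀ f ∈ F, ∀ n m, ‖f n m‖ ≤ Real.log H ^ A) →
    ∃ Bad ⊆ Box k d H, (Bad.card : ℝ) ≤ (Box k d H).card / Real.log H ^ A ∧
    ∀ c ∈ Box k d H, c ∉ Bad → ∀ K : ℕ, Real.log H ^ B ≤ K → (K : ℝ) * Real.log H ^ B ≤ H →
      (∀ f ∈ F, ∀ j : Fin k,
        ‖∑ n ∈ Icc 1 K, ((ArithmeticFunction.moebius (val (d j) (g j) (c j) n).natAbs : ℤ) : ℂ) *
          f n (fun i => if i = j then 0 else val (d i) (g i) (c i) n)‖ ≤ K / Real.log H ^ A) ∧
      (∀ f ∈ F, ∀ I J : Finset (Fin k), Disjoint I J → I.Nonempty →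
        ‖∑ n ∈ Icc 1 K, f n 0 * (((∏ i ∈ I, ArithmeticFunction.moebius (val (d i) (g i) (c i) n).natAbs) *
          ∏ j ∈ J, ArithmeticFunction.moebius (val (d j) (g j) (c j) n).natAbs ^ 2 : ℤ) : ℂ)‖ ≤
            K / Real.log H ^ A) := by
  obtain ⟨B, H0, h⟩ := Pool.Agent.Q236.CR.one_sys D (3 * A + 2)
  obtain ⟨H1, h1⟩ := Pool.Agent.Q236.CR.evL _ (Filter.eventually_ge_atTop (8 : ℝ))
  refine ⟨B, max H0 H1, fun H hH k d hk2 hd' g hg F hF hFb => ?_⟩
  obtain ⟨s, rfl⟩ : ∃ s : Fin k → ℕ, d = fun i => s i + 1 :=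
    ⟨fun i => d i - 1, funext fun i => (Nat.sub_add_cancel (hd' i).1).symm⟩
  have hD : ∀ i, s i ≤ D := fun i => by have h3 : s i + 1 ≤ D := (hd' i).2; omega
  have hL8 := h1 H (by omega)
  have hhH := h H (by omega) k s hD
  clear h h1
  set L := Real.log H with hL
  have hkA : (k : ℝ) ≤ L ^ A := by
    have h3 : k ≤ 2 ^ k := Nat.lt_two_pow_self.le
    have h4 : (k : ℝ) ≤ (2 : ℝ) ^ k := by exact_mod_cast h3
    exact h4.trans hk2
  have hL0 : 0 < L := by linarith
  have hL1 : 1 ≤ L := by linarith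
  have hmu : ∀ n : ℕ, ‖((ArithmeticFunction.moebius n : ℤ) : ℂ)‖ ≤ 1 := by
    intro n
    have h2 : |ArithmeticFunction.moebius n| ≤ 1 := ArithmeticFunction.abs_moebius_le_one
    rw [Complex.norm_intCast]
    exact_mod_cast h2
  -- the two families of weights of the coordinate `j`
  obtain ⟨Φ, hΦ⟩ : ∃ Φ : Fin k → (ℕ → (Fin k → ℤ) → ℂ) → ((i : Fin k) → Fin (s i + 2) → ℤ) → ℕ → ℂ,
    Φ = fun j f c n => f n (fun i => if i = j then 0 else val (s i + 1) (g i) (c i) n) := ⟨_, rfl⟩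
  obtain ⟨Ψ, hΨ⟩ : ∃ Ψ : Fin k → (ℕ → (Fin k → ℤ) → ℂ) × (Finset (Fin k) × Finset (Fin k)) →
      ((i : Fin k) → Fin (s i + 2) → ℤ) → ℕ → ℂ, Ψ = fun j x c n => x.1 n 0 *
        (((∏ i ∈ x.2.1.erase j, ArithmeticFunction.moebius (val (s i + 1) (g i) (c i) n).natAbs) *
          ∏ i ∈ x.2.2.erase j, ArithmeticFunction.moebius (val (s i + 1) (g i) (c i) n).natAbs ^ 2 : ℤ) : ℂ) := ⟨_, rfl⟩
  obtain ⟨Fam, hFam⟩ : ∃ Fam : Fin k → Finset (((i : Fin k) → Fin (s i + 2) → ℤ) → ℕ → ℂ),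
    Fam = fun j => F.image (Φ j) ∪ (F ×ˢ (univ ×ˢ univ)).image (Ψ j) := ⟨_, rfl⟩
  have hF2 : L ^ A ≤ L ^ (3 * A + 2) := pow_le_pow_right₀ hL1 (by omega)
  have hbd : ∀ j, ∀ w ∈ Fam j, ∀ c ∈ Pool.Agent.Q236.CR.SB k s H, ∀ n : ℕ, 1 ≤ n → n ≤ H → ‖w c n‖ ≤ L ^ (3 * A + 2) := by
    intro j w hw c _ n _ _
    rw [hFam, mem_union, mem_image, mem_image] at hw
    rcases hw with ⟨f, hf, rfl⟩ | ⟨⟨f, I, J⟩, hx, rfl⟩
    · rw [hΦ]
      exact (hFb f hf _ _).trans hF2
    · rw [mem_product] at hx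
      rw [hΨ]
      simp only
      push_cast
      rw [norm_mul, norm_mul, norm_prod, norm_prod]
      have h3 : ∏ i ∈ I.erase j, ‖((ArithmeticFunction.moebius (val (s i + 1) (g i) (c i) n).natAbs : ℤ) : ℂ)‖ ≤ 1 :=
        prod_le_one (fun _ _ => norm_nonneg _) (fun i _ => hmu _)
      have h4 : ∏ i ∈ J.erase j, ‖((ArithmeticFunction.moebius (val (s i + 1) (g i) (c i) n).natAbs : ℤ) : ℂ) ^ 2‖ ≤ 1 :=
        prod_le_one (fun _ _ => norm_nonneg _) (fun i _ => by
          rw [norm_pow]; exact pow_le_one₀ (norm_nonneg _) (hmu _))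
      have h5 := hFb f hx.1 n 0
      calc ‖f n 0‖ * (_ * _) ≤ L ^ A * (1 * 1) := by
            apply mul_le_mul h5 _ (by positivity) (by positivity)
            exact mul_le_mul h3 h4 (prod_nonneg fun _ _ => norm_nonneg _) zero_le_one
        _ ≤ L ^ (3 * A + 2) := by rw [mul_one, mul_one]; exact hF2
  have hFcard : ∀ j, ((Fam j).card : ℝ) ≤ L ^ (3 * A + 2) := by
    intro j
    have h3 : (Fam j).card ≤ F.card + F.card * (2 ^ k * 2 ^ k) := by
      rw [hFam]
      refine (card_union_le _ _).trans (add_le_add card_image_le (card_image_le.trans ?_))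
      rw [card_product, card_product]
      simp [Fintype.card_finset]
    calc ((Fam j).card : ℝ) ≤ ((F.card + F.card * (2 ^ k * 2 ^ k) : ℕ) : ℝ) := by exact_mod_cast h3
      _ = F.card * (1 + (2 : ℝ) ^ k * (2 : ℝ) ^ k) := by push_cast; ring
      _ ≤ L ^ A * (L ^ A * L ^ A + L ^ A * L ^ A) := by
          gcongr
          have h4 : (1 : ℝ) ≤ L ^ A := one_le_pow₀ hL1
          nlinarith
      _ = 2 * L ^ (3 * A) := by ring
      _ ≤ L * L ^ (3 * A) := by gcongr; linarith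
      _ = L ^ (3 * A + 1) := by ring
      _ ≤ L ^ (3 * A + 2) := pow_le_pow_right₀ hL1 (by omega)
  have hup : ∀ j, ∀ w ∈ Fam j, ∀ c u, w (Function.update c j u) = w c := by
    intro j w hw c u
    rw [hFam, mem_union, mem_image, mem_image] at hw
    rcases hw with ⟨f, hf, rfl⟩ | ⟨⟨f, I, J⟩, hx, rfl⟩
    · rw [hΦ]
      funext n
      show f n _ = f n _
      congr 1
      funext i
      by_cases hij : i = j
      · rw [if_pos hij, if_pos hij]
      · rw [if_neg hij, if_neg hij, Function.update_of_ne hij]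
    · rw [hΨ]
      funext n
      show f n 0 * _ = f n 0 * _
      congr 2
      congr 1
      · refine prod_congr rfl fun i hi => ?_
        rw [Function.update_of_ne (ne_of_mem_erase hi)]
      · refine prod_congr rfl fun i hi => ?_
        rw [Function.update_of_ne (ne_of_mem_erase hi)]
  have h2 : (1 : Fin 3) ≠ 0 := by decide
  have hFT : ∀ n, Pool.Agent.Q236.CR.FT 1 n = ((ArithmeticFunction.moebius n : ℤ) : ℂ) := by
    intro n
    unfold Pool.Agent.Q236.CR.FT Pool.Agent.Q236.CR.fM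
    rw [if_neg h2, if_pos rfl]
  have hone := fun j : Fin k => hhH j 1 h2 (fun _ => g j) (Fam j) (fun _ _ => rfl) (fun _ _ => hg j) (hFcard j) (hup j)
    (hbd j)
  have hlow : ∀ K : ℕ, (K : ℝ) / L ^ (3 * A + 2) ≤ K / L ^ A := by
    intro K
    exact div_le_div_of_nonneg_left (Nat.cast_nonneg _) (by positivity) hF2
  refine ⟨univ.biUnion (fun j => (Pool.Agent.Q236.CR.SB k s H).filter (fun c => ∃ w ∈ Fam j, ∃ K : ℕ,
      L ^ B ≤ K ∧ (K : ℝ) * L ^ B ≤ H ∧
      (K : ℝ) / L ^ (3 * A + 2) < ‖∑ n ∈ Icc 1 K, w c n *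
        Pool.Agent.Q236.CR.FT 1 (Pool.Agent.Q236.CR.pv (s j) (g j) (c j) n).natAbs‖)), ?_, ?_, ?_⟩
  · intro c hc
    rw [mem_biUnion] at hc
    obtain ⟨j, _, hc⟩ := hc
    exact (mem_filter.1 hc).1
  · have h3 : (Box k (fun i => s i + 1) H) = Pool.Agent.Q236.CR.SB k s H := rfl
    rw [h3]
    refine (Nat.cast_le.2 card_biUnion_le).trans ?_
    rw [Nat.cast_sum]
    refine (sum_le_sum fun j _ => hone j).trans ?_
    rw [sum_const, nsmul_eq_mul, card_univ, Fintype.card_fin]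
    have h4 : (0 : ℝ) ≤ (Pool.Agent.Q236.CR.SB k s H).card := Nat.cast_nonneg _
    calc (k : ℝ) * ((Pool.Agent.Q236.CR.SB k s H).card / L ^ (3 * A + 2)) ≤
        L ^ A * ((Pool.Agent.Q236.CR.SB k s H).card / L ^ (3 * A + 2)) := by
          gcongr
      _ = (Pool.Agent.Q236.CR.SB k s H).card * (L ^ A / L ^ (3 * A + 2)) := by ring
      _ ≤ (Pool.Agent.Q236.CR.SB k s H).card * (1 / L ^ A) := by
          apply mul_le_mul_of_nonneg_left _ h4
          rw [div_le_div_iff₀ (by positivity) (by positivity), one_mul, ← pow_add]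
          exact pow_le_pow_right₀ hL1 (by omega)
      _ = _ := by ring
  · intro c hc hcb K hK1 hK2
    have hgood : ∀ j, ∀ w ∈ Fam j, ‖∑ n ∈ Icc 1 K, w c n *
        Pool.Agent.Q236.CR.FT 1 (Pool.Agent.Q236.CR.pv (s j) (g j) (c j) n).natAbs‖ ≤ K / L ^ (3 * A + 2) := by
      intro j w hw
      by_contra hcon
      push Not at hcon
      apply hcb
      rw [mem_biUnion]
      refine ⟨j, mem_univ _, ?_⟩
      rw [mem_filter]
      exact ⟨hc, w, hw, K, hK1, hK2, hcon⟩
    refine ⟨fun f hf j => ?_, fun f hf I J hIJ hI => ?_⟩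
    · have h3 := hgood j (Φ j f) (by rw [hFam, mem_union]; exact Or.inl (mem_image_of_mem _ hf))
      refine le_trans (le_of_eq ?_) (h3.trans (hlow K))
      congr 1
      refine sum_congr rfl fun n _ => ?_
      rw [hFT, hΦ, mul_comm]
      rfl
    · obtain ⟨j, hj⟩ := hI
      have hjJ : j ∉ J := fun hjJ => (disjoint_left.1 hIJ hj hjJ)
      have h3 := hgood j (Ψ j (f, (I, J))) (by
        rw [hFam, mem_union]
        exact Or.inr (mem_image_of_mem _ (by simp [hf])))
      refine le_trans (le_of_eq ?_) (h3.trans (hlow K))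
      congr 1
      refine sum_congr rfl fun n _ => ?_
      rw [hFT, hΨ]
      show _ = f n 0 * (((∏ i ∈ I.erase j, ArithmeticFunction.moebius (val (s i + 1) (g i) (c i) n).natAbs) *
          ∏ i ∈ J.erase j, ArithmeticFunction.moebius (val (s i + 1) (g i) (c i) n).natAbs ^ 2 : ℤ) : ℂ) * _
      rw [erase_eq_of_notMem hjJ, ← mul_prod_erase I _ hj]
      have h5 : Pool.Agent.Q236.CR.pv (s j) (g j) (c j) n = val (s j + 1) (g j) (c j) n := rfl
      rw [h5]
      push_cast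
      ring

end Pool.Agent.Results.MP_c59857_nt.CompleteRange
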