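import Pool.Agent.Q270.ED.Ch

/-!
# The Moebius function, deterministic sequences and the medium prime factors of neighbouring integers

`part w y n` is the part of `n` composed of the primes `w < p ≤ y`; `mean N φ` the mean of `φ` over `1, ..., N`;
`LogProp X B` the proportion, with the weights `1/N`, of the scales `N ≤ X` with the property `B`. A sequence `c` with
`|c| ≤ 1` is `Simple η T` if its words `c(n), ..., c(n + T - 1)` are, up to `η`, at most `exp(η T)` (all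
sequences of zero entropy are: periodic ones, `exp(2πiαn)`, nilsequences, the points of zero entropy systems).
Let `a_1, ..., a_m` be distinct, and `D(n) = (part w y (n + a_1), ..., part w y (n + a_m))`.

1. Let `b_1, ..., b_k` be different from the `a_l`, `ε > 0`. There is `η > 0` such that for all `T ≥ T₀` there are
   `w₀`, `A` such that for `w ≥ w₀` and large `X` all scales `N ≤ X` but a logarithmic proportion `ε` have
   the following property: for ALL `y ≤ N^{1/A}`, ALL `|Φ| ≤ 1`, ALL sets `E` of patterns and ALL `Simple η T` sequences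
   `c`, with `M(n) = (μ(n + b_1), ..., μ(n + b_k))`:
   `|mean Φ(D(n)) c(n) 1_E(M(n)) - mean Φ(D(n)) · mean c(n) 1_E(M(n))| ≤ ε`.
2. Chowla's conjecture for two simple exponents and any number of squares, at almost all scales, with all
   weights `Φ(D(n)) exp(2πiαn)`; one Moebius factor may be replaced by any multiplicative `|g| ≤ 1`, uniformly.
3. Chowla's conjecture for all exponents, at almost all scales, is equivalent to the orthogonality of `μ`
   to ALL products `Φ(D(n)) c(n) g_1(n + h_1) ⋯ g_k(n + h_k)` with `Φ`, `c` as in 1 and multiplicative `|g_j| ≤ 1`,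
   uniformly, at almost all scales.
-/

set_option autoImplicit false

namespace Pool.Agent.Results.MP_c59857_nt.DeterministicSequencesAndFactors

open Finset Filter Pool.Agent.Q270.EA Pool.Agent.Q270.EB Pool.Agent.Q270.EC Pool.Agent.Q270.ED

/-- the part of `n` composed of the primes `w < p ≤ y` -/
noncomputable def part (w y n : ℕ) : ℕ := ∏ p ∈ (Ioc w y).filter Nat.Prime, p ^ n.factorization p

/-- the mean over `1, ..., N` -/
noncomputable def mean (N : ℕ) (φ : ℕ → ℂ) : ℂ := (1 / (N : ℂ)) * ∑ n ∈ Icc 1 N, φ n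

open Classical in
/-- the proportion, with the weights `1 / N`, of the scales `N ≤ X` with the property `B` -/
noncomputable def LogProp (X : ℕ) (B : ℕ → Prop) : ℝ :=
  (∑ N ∈ Icc 1 X, if B N then 1 / (N : ℝ) else 0) / ∑ N ∈ Icc 1 X, 1 / (N : ℝ)

/-- `|c| ≤ 1` and up to `η` there are at most `exp(η T)` words of length `T` in `c` -/
def Simple (η : ℝ) (T : ℕ) (c : ℕ → ℂ) : Prop :=
  (∀ n, ‖c n‖ ≤ 1) ∧ ∃ V : Finset (ℕ → ℂ), (V.card : ℝ) ≤ Real.exp (η * T) ∧
    ∀ n, ∃ v ∈ V, ∀ i < T, ‖c (n + i) - v i‖ ≤ η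

open Classical in
/-- the indicator function of a set of patterns -/
noncomputable def one {k : ℕ} (E : Set (Fin k → ℤ)) (x : Fin k → ℤ) : ℂ := if x ∈ E then 1 else 0

/-- 1-bounded multiplicative functions -/
def Mul1 (f : ArithmeticFunction ℂ) : Prop := f.IsMultiplicative ∧ ∀ n, ‖f n‖ ≤ 1

/-- the Moebius function with values in `ℂ` -/
noncomputable def mob (n : ℕ) : ℂ := ((ArithmeticFunction.moebius n : ℤ) : ℂ)

/-- Chowla's conjecture for the Moebius function, all exponents, at almost all scales -/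
def ChowlaAlmostAllScales : Prop :=
  ∀ (r : ℕ) (α : Fin r → ℤ), Function.Injective α → ∀ e : Fin r → ℕ, (∀ i, e i = 1 ∨ e i = 2) →
    (∃ i, e i = 1) → ∀ ε : ℝ, 0 < ε → ∃ X₀ : ℕ, ∀ X : ℕ, X₀ ≤ X →
      LogProp X (fun N => ε < ‖mean N (fun n => ∏ i, mob ((n : ℤ) + α i).toNat ^ e i)‖) ≤ ε

/-- the Moebius function is orthogonal to all products of functions of the medium prime factors of other
integers, deterministic sequences and multiplicative functions at other places, at almost all scales -/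
def OrthogonalToAll : Prop :=
  ∀ (m k : ℕ) (a : Fin m → ℕ) (h : Fin (k + 1) → ℕ), 1 ≤ m → Function.Injective a →
    Function.Injective h → (∀ l j, a l ≠ h j) → ∀ ε : ℝ, 0 < ε → ∃ η : ℝ, 0 < η ∧ ∃ T₀ : ℕ,
    ∀ T : ℕ, T₀ ≤ T → ∃ w₀ A : ℕ, 1 ≤ A ∧ ∀ w : ℕ, w₀ ≤ w → ∃ X₀ : ℕ, ∀ X : ℕ, X₀ ≤ X →
    ∀ g : Fin k → ArithmeticFunction ℂ, (∀ j, Mul1 (g j)) →
      LogProp X (fun N => ¬ ∀ y : ℕ, y ^ A ≤ N → ∀ Φ : (Fin m → ℕ) → ℂ, (∀ d, ‖Φ d‖ ≤ 1) →
        ∀ c : ℕ → ℂ, Simple η T c → ‖mean N (fun n => Φ (fun l => part w y (n + a l)) * (c n *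
          (mob (n + h 0) * ∏ j, g j (n + h j.succ))))‖ ≤ ε) ≤ ε

lemma bm {f : ArithmeticFunction ℂ} (hf : Mul1 f) : BM f :=
  ⟨hf.2, hf.1.map_one, fun _ _ h => hf.1.map_mul_of_coprime h⟩

lemma orth_of_chowla (hC : ChowlaAlmostAllScales) : OrthogonalToAll := by
  intro m k a h hm ha hh hah ε hε
  have hE : EllU mu := ell_mu fun r α hr hα ε hε => by
    obtain ⟨X₀, hX₀⟩ := hC r α hα (fun _ => 1) (fun _ => Or.inl rfl) ⟨⟨0, hr⟩, rfl⟩ ε hε
    refine ⟨X₀, fun X hX => ?_⟩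
    have := hX₀ X hX
    simp only [pow_one] at this
    exact this
  obtain ⟨η, hη, T₀, h0⟩ := zall mu BM_mu hE m k a h hm ha hh hah ε hε
  refine ⟨η, hη, T₀, fun T hT => ?_⟩
  obtain ⟨w₀, A, hA, h1⟩ := h0 T hT
  refine ⟨w₀, A, hA, fun w hw => ?_⟩
  obtain ⟨X₀, h2⟩ := h1 w hw
  exact ⟨X₀, fun X hX g hg => h2 X hX (fun j => g j) fun j => bm (hg j)⟩

/-- the powers of the Moebius function as arithmetic functions -/
noncomputable def mobPow (e : ℕ) (he : e ≠ 0) : ArithmeticFunction ℂ :=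
  ⟨fun n => mob n ^ e, by simp [mob, he]⟩

lemma mobPow_mul1 (e : ℕ) (he : e ≠ 0) : Mul1 (mobPow e he) := by
  have hb := Pool.Agent.Q239.EB.BM_pow BM_mu e
  exact ⟨⟨hb.2.1, fun {m n} h => hb.2.2 m n h⟩, hb.1⟩

lemma chowla_of_orth (hO : OrthogonalToAll) : ChowlaAlmostAllScales := by
  classical
  intro r α hα e he hi ε hε
  obtain ⟨i₀, hi₀⟩ := hi
  obtain ⟨k, rfl⟩ : ∃ k, r = k + 1 := ⟨r - 1, by have := i₀.2; omega⟩
  -- all places natural numbers
  obtain ⟨C, hC⟩ : ∃ C : ℕ, ∀ i, 0 ≤ α i + C := by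
    refine ⟨∑ i, (α i).natAbs, fun i => ?_⟩
    have h1 : (α i).natAbs ≤ ∑ i, (α i).natAbs :=
      single_le_sum (f := fun i => (α i).natAbs) (fun _ _ => Nat.zero_le _) (mem_univ i)
    omega
  obtain ⟨σ, hσ⟩ : ∃ σ : Equiv.Perm (Fin (k + 1)), σ = Equiv.swap 0 i₀ := ⟨_, rfl⟩
  have hσ0 : σ 0 = i₀ := by rw [hσ]; exact Equiv.swap_apply_left _ _
  obtain ⟨h, hh⟩ : ∃ h : Fin (k + 1) → ℕ, ∀ i, ((h i : ℕ) : ℤ) = α (σ i) + C :=
    ⟨fun i => (α (σ i) + C).toNat, fun i => Int.toNat_of_nonneg (hC _)⟩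
  have hhi : Function.Injective h := by
    intro i j hij
    apply σ.injective
    apply hα
    have h1 := hh i
    have h2 := hh j
    rw [hij] at h1
    linarith
  have he0 : ∀ i, e i ≠ 0 := fun i => by rcases he i with h | h <;> omega
  obtain ⟨a, hah⟩ : ∃ a : Fin 1 → ℕ, ∀ l j, a l ≠ h j := by
    refine ⟨fun _ => 1 + ∑ j, h j, fun l j => ?_⟩
    have : h j ≤ ∑ j, h j := single_le_sum (f := h) (fun _ _ => Nat.zero_le _) (mem_univ j)
    beta_reduce
    omega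
  obtain ⟨η, hη, T₀, h0⟩ := hO 1 k a h le_rfl (fun i j _ => Subsingleton.elim i j) hhi hah (ε / 2)
    (by positivity)
  obtain ⟨w₀, A, hA, h1⟩ := h0 T₀ le_rfl
  obtain ⟨X₁, h2⟩ := h1 w₀ le_rfl
  obtain ⟨N₀, hN₀⟩ : ∃ N₀ : ℕ, 4 * C / (ε / 2) ≤ N₀ := exists_nat_ge _
  obtain ⟨X₂, h3⟩ := LM_small (N₀ + 1) (ε / 2) (by positivity)
  refine ⟨X₁ + X₂, fun X hX => ?_⟩
  have e1 := h2 X (by omega) (fun j => mobPow (e (σ j.succ)) (he0 _)) (fun j => mobPow_mul1 _ _)
  have e2 := h3 X (by omega)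
  obtain ⟨ψ, hψ⟩ : ∃ ψ : ℕ → ℂ, ψ = fun n : ℕ => ∏ i, mob ((n : ℤ) + α i).toNat ^ e i := ⟨_, rfl⟩
  have hψ1 : ∀ n, ‖ψ n‖ ≤ 1 := by
    intro n
    rw [hψ]
    dsimp only
    rw [norm_prod]
    refine prod_le_one (fun _ _ => norm_nonneg _) fun i _ => ?_
    rw [norm_pow]
    exact pow_le_one₀ (norm_nonneg _) (BM_mu.1 _)
  have hshift : ∀ n : ℕ, ψ (n + C) = mob (n + h 0) * ∏ j : Fin k, mob (n + h j.succ) ^ e (σ j.succ) := by
    intro n
    have h4 : ∀ i, (((n + C : ℕ) : ℤ) + α (σ i)).toNat = n + h i := by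
      intro i
      have h5 := hh i
      have h6 : ((n + C : ℕ) : ℤ) + α (σ i) = ((n + h i : ℕ) : ℤ) := by
        push_cast
        linarith
      rw [h6, Int.toNat_natCast]
    rw [hψ]
    dsimp only
    rw [← Equiv.prod_comp σ, Fin.prod_univ_succ]
    simp_rw [h4]
    rw [hσ0, hi₀, pow_one]
  refine (LM_mono X (Q := fun N => (¬ ∀ y : ℕ, y ^ A ≤ N → ∀ Φ : (Fin 1 → ℕ) → ℂ, (∀ d, ‖Φ d‖ ≤ 1) →
        ∀ c : ℕ → ℂ, Simple η T₀ c → ‖mean N (fun n => Φ (fun l => part w₀ y (n + a l)) * (c n *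
          (mob (n + h 0) * ∏ j : Fin k, mobPow (e (σ j.succ)) (he0 _) (n + h j.succ))))‖ ≤ ε / 2) ∨ N < N₀ + 1)
    fun N _ hN => ?_).trans ((LM_or X _ _).trans (by
      have := add_le_add e1 e2
      rw [add_halves] at this
      exact this))
  by_contra hcon
  push Not at hcon
  obtain ⟨hc1, hc2⟩ := hcon
  have hN0 : (0 : ℝ) < N := by exact_mod_cast (by omega : 0 < N)
  have e3 := hc1 0 (by rw [zero_pow (by omega)]; exact Nat.zero_le _) (fun _ => 1) (fun _ => by simp)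
    (fun _ => 1) ⟨fun _ => by simp, {fun _ => 1}, by
      rw [card_singleton, Nat.cast_one]
      exact Real.one_le_exp (by positivity), fun n => ⟨_, mem_singleton_self _, fun i _ => by
        simp
        exact hη.le⟩⟩
  have e4 : mean N (fun n => (1 : ℂ) * (1 * (mob (n + h 0) *
      ∏ j : Fin k, mobPow (e (σ j.succ)) (he0 _) (n + h j.succ)))) = mean N (fun n => ψ (n + C)) := by
    unfold mean
    congr 1
    refine sum_congr rfl fun n _ => ?_
    beta_reduce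
    rw [one_mul, one_mul, hshift]
    rfl
  rw [e4] at e3
  have e5 : ‖mean N ψ - mean N (fun n => ψ (n + C))‖ ≤ ε / 2 := by
    unfold mean
    rw [← mul_sub, norm_mul, norm_div, norm_one, Complex.norm_natCast, one_div_mul_eq_div, div_le_iff₀ hN0,
      norm_sub_rev]
    refine (shift_leC hψ1 N C).trans ?_
    rw [div_le_iff₀ (by positivity)] at hN₀
    have h7 : (N₀ : ℝ) ≤ N := by exact_mod_cast (by omega : N₀ ≤ N)
    nlinarith
  have e6 := norm_add_le (mean N ψ - mean N (fun n => ψ (n + C))) (mean N (fun n => ψ (n + C)))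
  rw [sub_add_cancel] at e6
  have e7 : ε < ‖mean N ψ‖ := by rw [hψ]; exact hN
  linarith

theorem result :
    -- 1. patterns of every length, deterministic sequences, medium prime factors
    (∀ (m k : ℕ) (a : Fin m → ℕ) (b : Fin k → ℕ), 1 ≤ m → 1 ≤ k → Function.Injective a →
      (∀ l j, a l ≠ b j) → ∀ ε : ℝ, 0 < ε → ∃ η : ℝ, 0 < η ∧ ∃ T₀ : ℕ, ∀ T : ℕ, T₀ ≤ T →
      ∃ w₀ A : ℕ, 1 ≤ A ∧ ∀ w : ℕ, w₀ ≤ w → ∃ X₀ : ℕ, ∀ X : ℕ, X₀ ≤ X →
      LogProp X (fun N => ¬ ∀ y : ℕ, y ^ A ≤ N → ∀ (Φ : (Fin m → ℕ) → ℂ) (E : Set (Fin k → ℤ))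
        (c : ℕ → ℂ), (∀ d, ‖Φ d‖ ≤ 1) → Simple η T c →
        ‖mean N (fun n => Φ (fun l => part w y (n + a l)) *
            (c n * one E (fun j => ArithmeticFunction.moebius (n + b j)))) -
          mean N (fun n => Φ (fun l => part w y (n + a l))) *
            mean N (fun n => c n * one E (fun j => ArithmeticFunction.moebius (n + b j)))‖ ≤ ε) ≤ ε) ∧
    -- 2. two simple exponents
    (∀ (m s : ℕ) (a : Fin m → ℕ) (c : Fin s → ℕ) (b₁ b₂ : ℕ), 1 ≤ m → Function.Injective a →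
      b₁ ≠ b₂ → (∀ l, a l ≠ b₁) → (∀ l, a l ≠ b₂) → (∀ l i, a l ≠ c i) → ∀ ε : ℝ, 0 < ε →
      ∃ w₀ A : ℕ, 1 ≤ A ∧ ∀ w : ℕ, w₀ ≤ w → ∃ X₀ : ℕ, ∀ X : ℕ, X₀ ≤ X →
      ∀ g : ArithmeticFunction ℂ, Mul1 g →
      LogProp X (fun N => ¬ ∀ y : ℕ, y ^ A ≤ N → ∀ Φ : (Fin m → ℕ) → ℂ, (∀ d, ‖Φ d‖ ≤ 1) → ∀ α : ℝ,
        ‖mean N (fun n => Φ (fun l => part w y (n + a l)) * (Complex.exp (2 * Real.pi * (α * n : ℝ) *
          Complex.I) * (mob (n + b₁) * (g (n + b₂) * ∏ i, mob (n + c i) ^ 2))))‖ ≤ ε) ≤ ε) ∧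
    -- 3. the conjecture at almost all scales
    (ChowlaAlmostAllScales ↔ OrthogonalToAll) := by
  classical
  refine ⟨?_, ?_, orth_of_chowla, chowla_of_orth⟩
  · intro m k a b hm hk ha hab ε hε
    obtain ⟨η, hη, T₀, h0⟩ := zpat m k a b hm hk ha hab ε hε
    refine ⟨η, hη, T₀, fun T hT => ?_⟩
    obtain ⟨w₀, A, hA, h⟩ := h0 T hT
    refine ⟨w₀, A, hA, fun w hw => ?_⟩
    obtain ⟨X₀, hX₀⟩ := h w hw
    refine ⟨X₀, fun X hX => ?_⟩
    refine le_trans (LM_mono X fun N _ hN => ?_) (hX₀ X hX (fun _ => mu) fun _ => Tern_mu)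
    intro hcon
    apply hN
    intro y hy Φ E c hΦ hc
    obtain ⟨E', hE'⟩ : ∃ E' : Set (Fin k → ℂ), E' = {x | ∃ e ∈ E, x = fun j => ((e j : ℤ) : ℂ)} :=
      ⟨_, rfl⟩
    have hE : ∀ n, ind E' (fun j => mu (n + b j)) =
        one E (fun j => ArithmeticFunction.moebius (n + b j)) := by
      intro n
      unfold ind one
      have h1 : (fun j => mu (n + b j)) ∈ E' ↔ (fun j => ArithmeticFunction.moebius (n + b j)) ∈ E := by
        rw [hE']
        constructor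
        · rintro ⟨e, he, hx⟩
          have : (fun j => ArithmeticFunction.moebius (n + b j)) = e := by
            funext j
            have h2 := congrFun hx j
            unfold mu at h2
            exact_mod_cast h2
          rw [this]
          exact he
        · intro he
          exact ⟨_, he, rfl⟩
      simp only [h1]
    have h2 := hcon y hy Φ E' c hΦ hc
    simp only [hE] at h2
    exact h2
  · intro m s a c b₁ b₂ hm ha hb h₁ h₂ h₃ ε hε
    obtain ⟨w₀, A, hA, h⟩ := zmu m a s c b₁ b₂ hm ha hb h₁ h₂ h₃ ε hε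
    refine ⟨w₀, A, hA, fun w hw => ?_⟩
    obtain ⟨X₀, hX₀⟩ := h w hw
    refine ⟨X₀, fun X hX g hg => ?_⟩
    refine le_trans (LM_mono X fun N _ hN => ?_) (hX₀ X hX g (bm hg))
    intro hcon
    apply hN
    intro y hy Φ hΦ α
    have h2 := hcon y hy Φ hΦ α
    simp only [← mu_sq] at h2
    exact h2

end Pool.Agent.Results.MP_c59857_nt.DeterministicSequencesAndFactors
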